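import Mathlib

set_option autoImplicit false

namespace Pool.Agent.Results.MP_ca5fbf_co.Refute

/-- Largest size of a subset of `{1, …, m}` without three-term progression. -/
def r3 (m : ℕ) : ℕ := addRothNumber (Finset.Icc 1 m)

def A (n : ℕ) : ℤ := (n : ℤ) - r3 ((n + 2) / 3)

def B (n : ℕ) : ℤ :=
  (n : ℤ) - ((Finset.range ((n + 1) / 2 + 1)).sup
    (fun k => r3 ((k + 1) / 2) + r3 ((((n + 1) / 2 - k) + 1) / 2)) : ℕ)

lemma r3_eq (m : ℕ) : r3 m = rothNumberNat m := by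
  unfold r3
  have : Finset.Icc 1 m = Finset.Ico 1 (m + 1) := by
    ext x; simp [Finset.mem_Icc, Finset.mem_Ico]
  rw [this, addRothNumber_Ico]
  simp

lemma step (h : ∀ n, 1 ≤ n → B n ≤ A n) (x : ℕ) (hx : 1 ≤ x) :
    ∃ a b : ℕ, 4 * (a + b) ≤ 3 * x + 3 ∧ r3 x ≤ r3 a + r3 b := by
  have h1 := h (3 * x - 2) (by omega)
  unfold A B at h1
  have e : (3 * x - 2 + 2) / 3 = x := by omega
  rw [e] at h1
  obtain ⟨p, hp, hp2⟩ := Finset.exists_mem_eq_sup (Finset.range ((3 * x - 2 + 1) / 2 + 1))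
    ⟨0, by simp⟩ (fun k => r3 ((k + 1) / 2) + r3 ((((3 * x - 2 + 1) / 2 - k) + 1) / 2))
  rw [hp2] at h1
  rw [Finset.mem_range] at hp
  refine ⟨(p + 1) / 2, (((3 * x - 2 + 1) / 2 - p) + 1) / 2, by omega, ?_⟩
  omega

lemma bound (h : ∀ n, 1 ≤ n → B n ≤ A n) (j : ℕ) :
    ∀ x : ℕ, (r3 x : ℝ) + 1 ≤ (3 / 4) ^ j * x + 2 ^ j := by
  induction j with
  | zero =>
    intro x
    have : r3 x ≤ x := by rw [r3_eq]; exact rothNumberNat_le x
    have : (r3 x : ℝ) ≤ x := by exact_mod_cast this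
    simp; linarith
  | succ j ih =>
    intro x
    rcases Nat.eq_zero_or_pos x with rfl | hx
    · have : r3 0 = 0 := by rw [r3_eq]; simp
      rw [this]
      have : (1 : ℝ) ≤ 2 ^ (j + 1) := one_le_pow₀ (by norm_num)
      simp; linarith
    · obtain ⟨a, b, hab, hr⟩ := step h x hx
      have ha := ih a
      have hb := ih b
      have hab' : (4 : ℝ) * (a + b) ≤ 3 * x + 3 := by exact_mod_cast hab
      have hr' : (r3 x : ℝ) ≤ r3 a + r3 b := by exact_mod_cast hr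
      have hp : (0 : ℝ) ≤ (3 / 4) ^ j := by positivity
      have hq : ((3 : ℝ) / 4) ^ j ≤ 1 := pow_le_one₀ (by norm_num) (by norm_num)
      have := mul_le_mul_of_nonneg_left hab' hp
      rw [pow_succ, pow_succ]
      nlinarith

theorem result : ∃ n : ℕ, 1 ≤ n ∧ A n < B n := by
  by_contra hc
  push Not at hc
  have hb := bound hc 400 (3 ^ 400)
  have hl := @Behrend.roth_lower_bound (3 ^ 400)
  rw [← r3_eq] at hl
  have hlog : Real.log ((3 ^ 400 : ℕ) : ℝ) ≤ 21 ^ 2 := by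
    rw [Nat.cast_pow, Real.log_pow]
    have h3 : Real.log ((3 : ℕ) : ℝ) ≤ 11 / 10 := by
      rw [Real.log_le_iff_le_exp (by norm_num)]
      have h1 := Real.exp_one_gt_d9
      have h2 := Real.add_one_le_exp (1 / 10 : ℝ)
      have h4 : Real.exp (11 / 10) = Real.exp 1 * Real.exp (1 / 10) := by
        rw [← Real.exp_add]; norm_num
      have h5 := Real.quadratic_le_exp_of_nonneg (x := 1 / 10) (by norm_num)
      rw [h4]
      push_cast
      nlinarith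
    push_cast at h3 ⊢
    nlinarith
  have hs : √(Real.log ((3 ^ 400 : ℕ) : ℝ)) ≤ 21 := by
    rw [Real.sqrt_le_iff]; exact ⟨by norm_num, hlog⟩
  have he : Real.exp (-84) ≤ Real.exp (-4 * √(Real.log ((3 ^ 400 : ℕ) : ℝ))) :=
    Real.exp_le_exp.2 (by linarith)
  have h84 : Real.exp 84 ≤ 3 ^ 84 := by
    have : Real.exp 84 = Real.exp 1 ^ 84 := by rw [← Real.exp_nat_mul]; norm_num
    rw [this]
    exact pow_le_pow_left₀ (Real.exp_pos 1).le (by linarith [Real.exp_one_lt_d9]) 84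
  have h85 : (1 : ℝ) / 3 ^ 84 ≤ Real.exp (-84) := by
    rw [Real.exp_neg, one_div]
    exact inv_anti₀ (Real.exp_pos _) h84
  have h6 : ((3 ^ 400 : ℕ) : ℝ) * (1 / 3 ^ 84) ≤ r3 (3 ^ 400) :=
    le_trans (mul_le_mul_of_nonneg_left (h85.trans he) (by positivity)) hl
  have h7 : (2 : ℝ) ^ 400 ≤ (3 / 4) ^ 400 * ((3 ^ 400 : ℕ) : ℝ) := by
    rw [Nat.cast_pow, ← mul_pow]
    exact pow_le_pow_left₀ (by norm_num) (by norm_num) 400
  have h8 : 2 * ((3 : ℝ) / 4) ^ 400 ≤ 1 / 3 ^ 84 := by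
    rw [show (400 : ℕ) = 200 * 2 from rfl, pow_mul]
    norm_num
  have hN : (0 : ℝ) ≤ ((3 ^ 400 : ℕ) : ℝ) := Nat.cast_nonneg _
  have h9 := mul_le_mul_of_nonneg_left h8 hN
  generalize ((3 ^ 400 : ℕ) : ℝ) = N at *
  generalize ((3 : ℝ) / 4) ^ 400 = c at *
  generalize (2 : ℝ) ^ 400 = d at *
  generalize (1 : ℝ) / 3 ^ 84 = e at *
  linarith

end Pool.Agent.Results.MP_ca5fbf_co.Refute
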